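import Pool.Agent.Y315.NL.Twist3
import Pool.Agent.Y287.NL.Cov
import Pool.Agent.Y287.NL.Len
import Pool.Agent.Y454.NL.Fou
import Pool.Agent.Y495.NL.Line
import Pool.Agent.Y657.NL.TWM
import Pool.Agent.Y419.NL.Strip

/-!
# Yau's upper bound for all eigenfunctions on spheres and tori with a circle symmetry

Sphere: outside the two poles a rotation invariant metric is `ρ(x) (dx² + dy²)` on `ℝ × ℝ/2πℤ`
(Mercator coordinates) with `ρ(x) = O(exp (-2|x|))`; eigenfunctions are bounded there.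
Torus: an invariant metric is `ρ(x) (dx² + dy²)` on `ℝ²` modulo the lattice generated by `(0, 2π)`
and `(L, τ)`, with an arbitrary twist `τ`.

For every eigenvalue `lam > 0` and every eigenfunction (no condition on the multiplicity):
zero counts on all circles and all meridians, and length of the nodal set `≤ C √lam`.
Only the supremum of the (weighted) conformal factor enters the constants; `ρ` is only continuous.
-/

namespace Pool.Agent.Results.MP_c7f82c_an.CircleSymmetricSurfaces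

open MeasureTheory Set Pool.Agent.Y315.NL
open scoped ContDiff ENNReal

lemma it2x {F : ℝ × ℝ → ℝ} (hF : ContDiff ℝ 2 F) (x y : ℝ) :
    iteratedDeriv 2 (fun t => F (t, y)) x = dx (dx F) (x, y) := by
  rw [iteratedDeriv_succ, iteratedDeriv_one]
  have h1 : deriv (fun t => F (t, y)) = fun t => dx F (t, y) := by
    funext t
    exact (hasDerivAt_dx (hF.of_le (by norm_num)) t y).deriv
  rw [h1]
  exact (hasDerivAt_dx (contDiff_dx2 hF) x y).deriv

lemma it2y {F : ℝ × ℝ → ℝ} (hF : ContDiff ℝ 2 F) (x y : ℝ) :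
    iteratedDeriv 2 (fun t => F (x, t)) y = dy (dy F) (x, y) := by
  rw [iteratedDeriv_succ, iteratedDeriv_one]
  have h1 : deriv (fun t => F (x, t)) = fun t => dy F (x, t) := by
    funext t
    exact (hasDerivAt_dy (hF.of_le (by norm_num)) x t).deriv
  rw [h1]
  exact (hasDerivAt_dy (contDiff_dy2 hF) x y).deriv

lemma count_set {Z : Set ℝ} {C : ℝ}
    (h : ∀ S : Finset ℝ, (∀ t ∈ S, t ∈ Z) → (S.card : ℝ) ≤ C) :
    Z.Finite ∧ ((Z.ncard : ℕ) : ℝ) ≤ C := by
  have hfin : Z.Finite := count_fin h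
  refine ⟨hfin, ?_⟩
  rw [Set.ncard_eq_toFinset_card _ hfin]
  exact h _ (fun t ht => (hfin.mem_toFinset).1 ht)

lemma count_circle {w : ℝ → ℝ} {C : ℝ}
    (h : ∀ S : Finset ℝ, (∀ t ∈ S, w t = 0) → (∀ a ∈ S, ∀ b ∈ S, b - a < 2 * Real.pi) →
      (S.card : ℝ) ≤ C) :
    {t | t ∈ Ico 0 (2 * Real.pi) ∧ w t = 0}.Finite ∧
      (({t | t ∈ Ico 0 (2 * Real.pi) ∧ w t = 0}.ncard : ℕ) : ℝ) ≤ C := by
  apply count_set
  intro S hS
  apply h S (fun t ht => (hS t ht).2)
  intro a ha b hb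
  have e1 := (hS a ha).1.1
  have e2 := (hS b hb).1.2
  linarith

/-- small `lam`: there are no zeros at all -/
lemma no_zeros {φ : ℝ × ℝ → ℝ} {V : ℝ → ℝ} {B M : ℝ} (hB : B < 1)
    (hφ : ContDiff ℝ 2 φ) (hV : Continuous V) (hper : ∀ x y, φ (x, y + 2 * Real.pi) = φ (x, y))
    (heq : ∀ x y, dx (dx φ) (x, y) + dy (dy φ) (x, y) + V x * φ (x, y) = 0)
    (hVB : ∀ x, 0 ≤ V x ∧ V x ≤ B * Real.exp (-2 * |x|)) (hM : ∀ p, |φ p| ≤ M)
    (hne : ∃ p, φ p ≠ 0) : ∀ p, φ p ≠ 0 := by
  obtain ⟨f1, f2, f3, f4, f5⟩ := Pool.Agent.Y454.NL.fou φ V hφ hV hper heq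
  have hA : ∀ k y, _ := fun k y => Pool.Agent.Y970.NL.asy k B (2 * M) V (fun s => FM φ k s y)
    (fun s => FM (dx φ) k s y) hV hVB
      (fun s => f1 k s y) (fun s => f2 k s y) (fun s => f4 k s y M (fun t => hM _))
  have hvan : ∀ k > 0, ∀ x y, FM φ k x y = 0 := by
    intro k hk x y
    have e1 : (1 : ℝ) ≤ k := by exact_mod_cast hk
    exact (hA k y).2.2.2 (by nlinarith) x
  have hexp : ∀ x y, φ (x, y) = FM φ 0 x y := by
    intro x y
    have := f5 0 x (fun k hk y => hvan k hk x y) y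
    simpa using this
  have hind : ∀ x y y', FM φ 0 x y = FM φ 0 x y' := by
    intro x y y'
    obtain ⟨α, β, h⟩ := f3 0 x
    rw [h y, h y']
    simp
  obtain ⟨⟨x0, y0⟩, h0⟩ := hne
  rintro ⟨x, y⟩
  rw [hexp]
  refine (hA 0 y).2.2.1 0 le_rfl (by simpa using hB) ⟨x0, ?_⟩ x (abs_nonneg x)
  rw [hexp] at h0
  rwa [hind x0 y y0]

theorem result :
    -- SPHERES
    (∀ (b lam M : ℝ) (ρ : ℝ → ℝ) (F : ℝ × ℝ → ℝ), 0 < b → 0 < lam → Continuous ρ →
      (∀ x, 0 ≤ ρ x ∧ ρ x ≤ b ^ 2 * Real.exp (-2 * |x|)) → ContDiff ℝ 2 F →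
      (∀ x y, F (x, y + 2 * Real.pi) = F (x, y)) → (∀ p, |F p| ≤ M) →
      (∀ x y, iteratedDeriv 2 (fun t => F (t, y)) x + iteratedDeriv 2 (fun t => F (x, t)) y
        + lam * ρ x * F (x, y) = 0) → (∃ p, F p ≠ 0) →
      -- circles of latitude
      (∀ x, (∀ y, F (x, y) = 0) ∨ ({y | y ∈ Ico 0 (2 * Real.pi) ∧ F (x, y) = 0}.Finite ∧
        (({y | y ∈ Ico 0 (2 * Real.pi) ∧ F (x, y) = 0}.ncard : ℕ) : ℝ) ≤ 2 * (b * √lam))) ∧
      -- meridians
      (∀ y, (∀ x, F (x, y) = 0) ∨ ({x | F (x, y) = 0}.Finite ∧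
        (({x | F (x, y) = 0}.ncard : ℕ) : ℝ) ≤ 12 * (b * √lam))) ∧
      -- length of the nodal set for the metric `ρ(x) (dx² + dy²)`
      ∫⁻ p in {p : EuclideanSpace ℝ (Fin 2) |
          0 ≤ p 1 ∧ p 1 < 2 * Real.pi ∧ F (p 0, p 1) = 0},
          ENNReal.ofReal √(ρ (p 0)) ∂μH[1] ≤ ENNReal.ofReal (2000 * b ^ 2 * √lam)) ∧
    -- TORI with an arbitrary twist
    (∀ (L τ b lam : ℝ) (ρ : ℝ → ℝ) (F : ℝ × ℝ → ℝ), 0 < L → 0 < b → 0 < lam → Continuous ρ →
      (∀ x, ρ (x + L) = ρ x) → (∀ x, 0 ≤ ρ x ∧ ρ x ≤ b ^ 2) → ContDiff ℝ 2 F →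
      (∀ x y, F (x, y + 2 * Real.pi) = F (x, y)) → (∀ x y, F (x + L, y + τ) = F (x, y)) →
      (∀ x y, iteratedDeriv 2 (fun t => F (t, y)) x + iteratedDeriv 2 (fun t => F (x, t)) y
        + lam * ρ x * F (x, y) = 0) → (∃ p, F p ≠ 0) →
      -- circles
      (∀ x, (∀ y, F (x, y) = 0) ∨ ({y | y ∈ Ico 0 (2 * Real.pi) ∧ F (x, y) = 0}.Finite ∧
        (({y | y ∈ Ico 0 (2 * Real.pi) ∧ F (x, y) = 0}.ncard : ℕ) : ℝ) ≤ 2 * (b * √lam))) ∧
      -- length of the nodal set in the coordinates and for the metric `ρ(x) (dx² + dy²)`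
      μH[1] {p : EuclideanSpace ℝ (Fin 2) |
          0 ≤ p 0 ∧ p 0 < L ∧ 0 ≤ p 1 ∧ p 1 < 2 * Real.pi ∧ F (p 0, p 1) = 0}
        ≤ ENNReal.ofReal (35 * L * b * √lam) ∧
      ∫⁻ p in {p : EuclideanSpace ℝ (Fin 2) |
          0 ≤ p 0 ∧ p 0 < L ∧ 0 ≤ p 1 ∧ p 1 < 2 * Real.pi ∧ F (p 0, p 1) = 0},
          ENNReal.ofReal √(ρ (p 0)) ∂μH[1] ≤ ENNReal.ofReal (35 * L * b ^ 2 * √lam)) := by
  constructor
  · intro b lam M ρ F hb hlam hρ hρb hF hper hM heq hne
    have hV : Continuous (fun x => lam * ρ x) := continuous_const.mul hρ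
    have heq' : ∀ x y, dx (dx F) (x, y) + dy (dy F) (x, y) + (fun x => lam * ρ x) x * F (x, y)
        = 0 := by
      intro x y
      rw [← it2x hF, ← it2y hF]
      exact heq x y
    set B := b ^ 2 * lam with hBd
    have hB0 : 0 < B := by positivity
    have hsB : √B = b * √lam := by
      rw [hBd, Real.sqrt_mul (by positivity), Real.sqrt_sq hb.le]
    have hVB : ∀ x, 0 ≤ (fun x => lam * ρ x) x ∧
        (fun x => lam * ρ x) x ≤ B * Real.exp (-2 * |x|) := by
      intro x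
      obtain ⟨h1, h2⟩ := hρb x
      refine ⟨mul_nonneg hlam.le h1, ?_⟩
      have := mul_le_mul_of_nonneg_left h2 hlam.le
      simp only [hBd]
      linarith
    rcases lt_or_ge B 1 with hB | hB
    · have hnz := no_zeros hB hF hV hper heq' hVB hM hne
      have e1 : 0 ≤ 2 * (b * √lam) := by positivity
      have e2 : 0 ≤ 12 * (b * √lam) := by positivity
      refine ⟨fun x => Or.inr ?_, fun y => Or.inr ?_, ?_⟩
      · have : {y | y ∈ Ico 0 (2 * Real.pi) ∧ F (x, y) = 0} = ∅ := by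
          ext y
          simp [hnz (x, y)]
        rw [this]
        simpa using e1
      · have : {x | F (x, y) = 0} = ∅ := by
          ext x
          simp [hnz (x, y)]
        rw [this]
        simpa using e2
      · have : {p : EuclideanSpace ℝ (Fin 2) |
            0 ≤ p 1 ∧ p 1 < 2 * Real.pi ∧ F (p 0, p 1) = 0} = ∅ := by
          ext p
          simp [hnz (p 0, p 1)]
        rw [this]
        simp
    · obtain ⟨h1, h2, h3⟩ := sphere Pool.Agent.Y287.NL.cov Pool.Agent.Y287.NL.len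
        Pool.Agent.Y454.NL.fou Pool.Agent.Y495.NL.line Pool.Agent.Y970.NL.asy
        Pool.Agent.Y500.NL.tail hB hF hV hper heq' hVB hM hne
      rw [hsB] at h1 h2 h3
      refine ⟨fun x => ?_, fun y => ?_, ?_⟩
      · by_cases hx : ∃ y, F (x, y) ≠ 0
        · exact Or.inr (count_circle (w := fun y => F (x, y)) (h1 x hx))
        · left
          push Not at hx
          exact hx
      · by_cases hy : ∃ x, F (x, y) ≠ 0
        · exact Or.inr (count_set (fun S hS => h2 y hy S hS))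
        · left
          push Not at hy
          exact hy
      · set Z : Set (EuclideanSpace ℝ (Fin 2)) := {p | F (p 0, p 1) = 0} with hZ
        have hZc : IsClosed Z := by
          apply isClosed_eq _ continuous_const
          exact hF.continuous.comp (by fun_prop)
        have key := Pool.Agent.Y419.NL.strip Z (500 * (b * √lam)) b (fun x => √(ρ x))
          (by positivity) hb.le hZc (fun k => by
            refine (measure_mono ?_).trans (h3 k)
            rintro p ⟨h5, h1, h2, h3, h4⟩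
            exact ⟨h1, h2, h3, h4, h5⟩)
          (fun x => by
            have e1 : √(ρ x) ≤ √((b * Real.exp (-|x|)) ^ 2) := by
              apply Real.sqrt_le_sqrt
              refine (hρb x).2.trans (le_of_eq ?_)
              rw [mul_pow, ← Real.exp_nat_mul]
              congr 2
              push_cast
              ring
            rwa [Real.sqrt_sq (by positivity)] at e1)
        have e2 : {p : EuclideanSpace ℝ (Fin 2) |
            0 ≤ p 1 ∧ p 1 < 2 * Real.pi ∧ F (p 0, p 1) = 0}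
            = Z ∩ {p | 0 ≤ p 1 ∧ p 1 < 2 * Real.pi} := by
          ext p
          constructor
          · rintro ⟨h1, h2, h3⟩
            exact ⟨h3, h1, h2⟩
          · rintro ⟨h3, h1, h2⟩
            exact ⟨h1, h2, h3⟩
        rw [e2]
        refine key.trans (ENNReal.ofReal_le_ofReal (le_of_eq ?_))
        ring
  · intro L τ b lam ρ F hL hb hlam hρ hρp hρb hF hper htw heq hne
    have hV : Continuous (fun x => lam * ρ x) := continuous_const.mul hρ
    have heq' : ∀ x y, dx (dx F) (x, y) + dy (dy F) (x, y) + (fun x => lam * ρ x) x * F (x, y)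
        = 0 := by
      intro x y
      rw [← it2x hF, ← it2y hF]
      exact heq x y
    have hκ : 0 < b * √lam := by positivity
    have hκ2 : (b * √lam) ^ 2 = b ^ 2 * lam := by
      rw [mul_pow, Real.sq_sqrt hlam.le]
    have hV0 : ∀ x, 0 ≤ (fun x => lam * ρ x) x ∧ (fun x => lam * ρ x) x ≤ (b * √lam) ^ 2 := by
      intro x
      obtain ⟨h1, h2⟩ := hρb x
      refine ⟨mul_nonneg hlam.le h1, ?_⟩
      rw [hκ2]
      have := mul_le_mul_of_nonneg_left h2 hlam.le
      simp only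
      linarith
    have hVp : ∀ x, (fun x => lam * ρ x) (x + L) = (fun x => lam * ρ x) x := fun x => by
      simp only [hρp x]
    have hvan := high_modes Pool.Agent.Y454.NL.fou hL hκ hF hV hper htw heq' hV0
    have hlen := twist_len Pool.Agent.Y287.NL.cov Pool.Agent.Y287.NL.len
      Pool.Agent.Y454.NL.fou Pool.Agent.Y657.NL.twm hL hκ hF hV hper htw hVp heq' hV0 hne
    have hlen' : μH[1] {p : EuclideanSpace ℝ (Fin 2) |
          0 ≤ p 0 ∧ p 0 < L ∧ 0 ≤ p 1 ∧ p 1 < 2 * Real.pi ∧ F (p 0, p 1) = 0}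
        ≤ ENNReal.ofReal (35 * L * b * √lam) :=
      hlen.trans (ENNReal.ofReal_le_ofReal (le_of_eq (by ring)))
    refine ⟨fun x => ?_, hlen', ?_⟩
    · by_cases hx : ∃ y, F (x, y) ≠ 0
      · right
        apply count_circle (w := fun y => F (x, y))
        intro S hS hSw
        have := circle_count Pool.Agent.Y454.NL.fou (B := (b * √lam) ^ 2) (by positivity) hF hV
          hper heq' ⌊b * √lam⌋₊ (by rw [Real.sqrt_sq hκ.le]; exact Nat.floor_le hκ.le) x
          (fun k hk y => hvan k hk x y) hx S hS hSw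
        rwa [Real.sqrt_sq hκ.le] at this
      · left
        push Not at hx
        exact hx
    · calc ∫⁻ p in {p : EuclideanSpace ℝ (Fin 2) |
            0 ≤ p 0 ∧ p 0 < L ∧ 0 ≤ p 1 ∧ p 1 < 2 * Real.pi ∧ F (p 0, p 1) = 0},
            ENNReal.ofReal √(ρ (p 0)) ∂μH[1]
          ≤ ∫⁻ p in {p : EuclideanSpace ℝ (Fin 2) |
            0 ≤ p 0 ∧ p 0 < L ∧ 0 ≤ p 1 ∧ p 1 < 2 * Real.pi ∧ F (p 0, p 1) = 0},
            ENNReal.ofReal b ∂μH[1] := by
            apply lintegral_mono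
            intro p
            apply ENNReal.ofReal_le_ofReal
            rw [Real.sqrt_le_left hb.le]
            exact (hρb _).2
        _ = ENNReal.ofReal b * μH[1] {p : EuclideanSpace ℝ (Fin 2) |
            0 ≤ p 0 ∧ p 0 < L ∧ 0 ≤ p 1 ∧ p 1 < 2 * Real.pi ∧ F (p 0, p 1) = 0} := by
            rw [lintegral_const, Measure.restrict_apply_univ]
        _ ≤ ENNReal.ofReal b * ENNReal.ofReal (35 * L * b * √lam) := by
            gcongr
        _ = ENNReal.ofReal (35 * L * b ^ 2 * √lam) := by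
            rw [← ENNReal.ofReal_mul hb.le]
            congr 1
            ring

end Pool.Agent.Results.MP_c7f82c_an.CircleSymmetricSurfaces
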