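import Pool.Agent.Y315.NL.Torus
import Pool.Agent.Y287.NL.Cov
import Pool.Agent.Y287.NL.Len
import Pool.Agent.H70NL.Dim
import Pool.Agent.Y500.NL.Dec

/-!
# Yau's upper bound for all eigenfunctions on all smooth Liouville tori

Torus `ℝ²/(Lℤ × Pℤ)` with the metric `g = (a(x) + b(y)) (dx² + dy²)`, `a`, `b` smooth and periodic
(this contains all rotationally symmetric metrics `b = 0`, and the flat ones).  Every real
eigenfunction `F` (no condition on the multiplicity of the eigenvalue `lam`) has at most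
`L √(lam B) / π` zeros on every horizontal and `P √(lam B) / π` zeros on every vertical closed line
on which it does not vanish identically, its zero set is covered by `6 L P √(lam B) / h` squares of
side `h` for all small `h`, and its length is at most `16 √2 / π` times `L P √(lam B)`, where
`B` is an upper bound of `a + b`.
-/

namespace Pool.Agent.Results.MP_c7f82c_an.LiouvilleTori

open MeasureTheory Set Pool.Agent.Y315.NL
open scoped ContDiff

lemma it2x {F : ℝ × ℝ → ℝ} (hF : ContDiff ℝ ((⊤ : ℕ∞) : WithTop ℕ∞) F) (x y : ℝ) :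
    iteratedDeriv 2 (fun t => F (t, y)) x = dx (dx F) (x, y) := by
  rw [iteratedDeriv_succ, iteratedDeriv_one]
  have h1 : deriv (fun t => F (t, y)) = fun t => dx F (t, y) := by
    funext t
    exact (hasDerivAt_dx (hF.of_le one_le_inf) t y).deriv
  rw [h1]
  exact (hasDerivAt_dx ((contDiff_dx hF).of_le one_le_inf) x y).deriv

lemma it2y {F : ℝ × ℝ → ℝ} (hF : ContDiff ℝ ((⊤ : ℕ∞) : WithTop ℕ∞) F) (x y : ℝ) :
    iteratedDeriv 2 (fun t => F (x, t)) y = dy (dy F) (x, y) := by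
  rw [iteratedDeriv_succ, iteratedDeriv_one]
  have h1 : deriv (fun t => F (x, t)) = fun t => dy F (x, t) := by
    funext t
    exact (hasDerivAt_dy (hF.of_le one_le_inf) x t).deriv
  rw [h1]
  exact (hasDerivAt_dy ((contDiff_dy hF).of_le one_le_inf) x y).deriv

lemma count_window {w : ℝ → ℝ} {L C : ℝ}
    (h : ∀ S : Finset ℝ, (∀ t ∈ S, w t = 0) → (∀ a ∈ S, ∀ b ∈ S, b - a < L) →
      (S.card : ℝ) ≤ C) :
    {t | t ∈ Ico 0 L ∧ w t = 0}.Finite ∧ (({t | t ∈ Ico 0 L ∧ w t = 0}.ncard : ℕ) : ℝ) ≤ C := by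
  have hfin : {t | t ∈ Ico 0 L ∧ w t = 0}.Finite := by
    apply count_fin (C := C)
    intro S hS
    apply h S (fun t ht => (hS t ht).2)
    intro a ha b hb
    have e1 := (hS a ha).1.1
    have e2 := (hS b hb).1.2
    linarith
  refine ⟨hfin, ?_⟩
  rw [Set.ncard_eq_toFinset_card _ hfin]
  apply h
  · intro t ht
    exact ((hfin.mem_toFinset).1 ht).2
  · intro a ha b hb
    have e1 := ((hfin.mem_toFinset).1 ha).1.1
    have e2 := ((hfin.mem_toFinset).1 hb).1.2
    linarith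

theorem result (L P B lam : ℝ) (hL : 0 < L) (hP : 0 < P) (hB : 0 < B) (hlam : 0 < lam)
    (a b : ℝ → ℝ) (ha : ContDiff ℝ ∞ a) (hb : ContDiff ℝ ∞ b)
    (hap : ∀ x, a (x + L) = a x) (hbp : ∀ y, b (y + P) = b y)
    (hab : ∀ x y, 0 ≤ a x + b y ∧ a x + b y ≤ B)
    (F : ℝ × ℝ → ℝ) (hF : ContDiff ℝ ∞ F) (hFx : ∀ x y, F (x + L, y) = F (x, y))
    (hFy : ∀ x y, F (x, y + P) = F (x, y))
    (heq : ∀ x y, iteratedDeriv 2 (fun t => F (t, y)) x + iteratedDeriv 2 (fun t => F (x, t)) y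
      + lam * (a x + b y) * F (x, y) = 0)
    (hne : ∃ p, F p ≠ 0) :
    -- horizontal lines
    (∀ y, (∀ x, F (x, y) = 0) ∨ ({x | x ∈ Ico 0 L ∧ F (x, y) = 0}.Finite ∧
      (({x | x ∈ Ico 0 L ∧ F (x, y) = 0}.ncard : ℕ) : ℝ) ≤ L * √(lam * B) / Real.pi)) ∧
    -- vertical lines
    (∀ x, (∀ y, F (x, y) = 0) ∨ ({y | y ∈ Ico 0 P ∧ F (x, y) = 0}.Finite ∧
      (({y | y ∈ Ico 0 P ∧ F (x, y) = 0}.ncard : ℕ) : ℝ) ≤ P * √(lam * B) / Real.pi)) ∧
    -- coverings of the nodal set by squares of side `h`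
    (∀ h : ℝ, 0 < h → h ≤ 1 / √(lam * B) → h ≤ L / 16 → h ≤ P / 16 →
      ∃ T : Finset (ℝ × ℝ), (T.card : ℝ) ≤ 6 * L * P * √(lam * B) / h ∧
        ∀ x y, 0 ≤ x → x ≤ L → 0 ≤ y → y ≤ P → F (x, y) = 0 →
          ∃ p ∈ T, p.1 ≤ x ∧ x ≤ p.1 + h ∧ p.2 ≤ y ∧ y ≤ p.2 + h) ∧
    -- length of the nodal set in the coordinates
    μH[1] {p : EuclideanSpace ℝ (Fin 2) |
        0 ≤ p 0 ∧ p 0 < L ∧ 0 ≤ p 1 ∧ p 1 < P ∧ F (p 0, p 1) = 0}
      ≤ ENNReal.ofReal (16 * √2 / Real.pi * (L * P * √(lam * B))) ∧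
    -- length of the nodal set for the metric `(a(x) + b(y)) (dx² + dy²)`
    ∫⁻ p in {p : EuclideanSpace ℝ (Fin 2) |
        0 ≤ p 0 ∧ p 0 < L ∧ 0 ≤ p 1 ∧ p 1 < P ∧ F (p 0, p 1) = 0},
        ENNReal.ofReal √(a (p 0) + b (p 1)) ∂μH[1]
      ≤ ENNReal.ofReal (16 * √2 / Real.pi * (L * P * B) * √lam) := by
  set κ := √(lam * B) with hκd
  have hlB : 0 < lam * B := mul_pos hlam hB
  have hκ : 0 < κ := Real.sqrt_pos.2 hlB
  have hκ2 : κ ^ 2 = lam * B := Real.sq_sqrt hlB.le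
  have hq : ContDiff ℝ ((⊤ : ℕ∞) : WithTop ℕ∞) (fun x => lam * a x) := contDiff_const.mul ha
  have hr : ContDiff ℝ ((⊤ : ℕ∞) : WithTop ℕ∞) (fun y => lam * b y) := contDiff_const.mul hb
  have hqp : ∀ x, (fun x => lam * a x) (x + L) = (fun x => lam * a x) x := fun x => by
    simp only [hap x]
  have hrp : ∀ y, (fun y => lam * b y) (y + P) = (fun y => lam * b y) y := fun y => by
    simp only [hbp y]
  have hQ : ∀ x y, 0 ≤ (fun x => lam * a x) x + (fun y => lam * b y) y ∧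
      (fun x => lam * a x) x + (fun y => lam * b y) y ≤ κ ^ 2 := by
    intro x y
    obtain ⟨h1, h2⟩ := hab x y
    simp only
    rw [hκ2, ← mul_add]
    exact ⟨mul_nonneg hlam.le h1, mul_le_mul_of_nonneg_left h2 hlam.le⟩
  have hsol : Sol L P (fun x => lam * a x) (fun y => lam * b y) F := by
    refine ⟨hF, hFx, hFy, fun x y => ?_⟩
    have := heq x y
    rw [it2x hF, it2y hF] at this
    linarith
  have hdec : S_DEC := Pool.Agent.Y500.NL.dec Pool.Agent.H70NL.dim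
  obtain ⟨hh, hv⟩ := lines hdec hL hP hκ hq hr hqp hrp (fun x y => (hQ x y).2) hsol
  obtain ⟨hT1, hT2⟩ := torus Pool.Agent.Y287.NL.cov Pool.Agent.Y287.NL.len hdec hL hP hκ hq hr
    hqp hrp hQ hsol hne
  have hπ := Real.pi_pos
  have hlen : μH[1] {p : EuclideanSpace ℝ (Fin 2) |
        0 ≤ p 0 ∧ p 0 < L ∧ 0 ≤ p 1 ∧ p 1 < P ∧ F (p 0, p 1) = 0}
      ≤ ENNReal.ofReal (16 * √2 / Real.pi * (L * P * κ)) := by
    refine (measure_mono ?_).trans hT2
    rintro p ⟨h1, h2, h3, h4, h5⟩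
    exact ⟨h1, h2.le, h3, h4.le, h5⟩
  refine ⟨fun y => ?_, fun x => ?_, fun h h0 h1 h2 h3 => ?_, hlen, ?_⟩
  · by_cases hy : ∃ x, F (x, y) ≠ 0
    · exact Or.inr (count_window (w := fun x => F (x, y)) (hh y hy))
    · left
      push Not at hy
      exact hy
  · by_cases hx : ∃ y, F (x, y) ≠ 0
    · exact Or.inr (count_window (w := fun y => F (x, y)) (hv x hx))
    · left
      push Not at hx
      exact hx
  · obtain ⟨T, hTc, hTz⟩ := hT1 h h0 h1 h2 h3
    refine ⟨T, hTc.trans ?_, hTz⟩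
    have e1 : (L - 0) / h + 2 ≤ 9 / 8 * (L / h) := by
      rw [sub_zero]
      have : 2 ≤ L / h / 8 := by
        rw [div_div, le_div_iff₀ (by positivity)]
        linarith
      linarith
    have e2 : (P - 0) / h + 2 ≤ 9 / 8 * (P / h) := by
      rw [sub_zero]
      have : 2 ≤ P / h / 8 := by
        rw [div_div, le_div_iff₀ (by positivity)]
        linarith
      linarith
    have e3 : 0 ≤ 2 * (P * κ / Real.pi) := by positivity
    have e4 : 0 ≤ 2 * (L * κ / Real.pi) := by positivity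
    calc 4 * (((L - 0) / h + 2) * (2 * (P * κ / Real.pi))
          + ((P - 0) / h + 2) * (2 * (L * κ / Real.pi)))
        ≤ 4 * (9 / 8 * (L / h) * (2 * (P * κ / Real.pi))
          + 9 / 8 * (P / h) * (2 * (L * κ / Real.pi))) := by
          have := mul_le_mul_of_nonneg_right e1 e3
          have := mul_le_mul_of_nonneg_right e2 e4
          linarith
      _ = 18 / Real.pi * (L * P * κ / h) := by
          field_simp
          ring
      _ ≤ 6 * (L * P * κ / h) := by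
          apply mul_le_mul_of_nonneg_right _ (by positivity)
          rw [div_le_iff₀ hπ]
          linarith [Real.pi_gt_three]
      _ = 6 * L * P * κ / h := by ring
  · calc ∫⁻ p in {p : EuclideanSpace ℝ (Fin 2) |
          0 ≤ p 0 ∧ p 0 < L ∧ 0 ≤ p 1 ∧ p 1 < P ∧ F (p 0, p 1) = 0},
          ENNReal.ofReal √(a (p 0) + b (p 1)) ∂μH[1]
        ≤ ∫⁻ p in {p : EuclideanSpace ℝ (Fin 2) |
          0 ≤ p 0 ∧ p 0 < L ∧ 0 ≤ p 1 ∧ p 1 < P ∧ F (p 0, p 1) = 0},
          ENNReal.ofReal √B ∂μH[1] := by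
          apply lintegral_mono
          intro p
          exact ENNReal.ofReal_le_ofReal (Real.sqrt_le_sqrt (hab _ _).2)
      _ = ENNReal.ofReal √B * μH[1] {p : EuclideanSpace ℝ (Fin 2) |
          0 ≤ p 0 ∧ p 0 < L ∧ 0 ≤ p 1 ∧ p 1 < P ∧ F (p 0, p 1) = 0} := by
          rw [lintegral_const, Measure.restrict_apply_univ]
      _ ≤ ENNReal.ofReal √B * ENNReal.ofReal (16 * √2 / Real.pi * (L * P * κ)) := by
          gcongr
      _ = ENNReal.ofReal (16 * √2 / Real.pi * (L * P * B) * √lam) := by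
          rw [← ENNReal.ofReal_mul (Real.sqrt_nonneg _)]
          congr 1
          rw [hκd, Real.sqrt_mul hlam.le]
          have : √B * √B = B := Real.mul_self_sqrt hB.le
          calc √B * (16 * √2 / Real.pi * (L * P * (√lam * √B)))
              = 16 * √2 / Real.pi * (L * P * (√B * √B)) * √lam := by ring
            _ = _ := by rw [this]

end Pool.Agent.Results.MP_c7f82c_an.LiouvilleTori
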