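import Pool.Agent.Y291.PA.Final

/-!
# Doubling indices on tori whose metric is analytic in one variable

The torus is `ℝ × ℝ` modulo the lattice generated by `(L, α)` and `(0, 2π)`, with the metric
`ρ(x, y)(dx² + dy²)`, where `ρ` is continuous in both variables and real analytic in `y` only
(uniformly).  This contains, with no assumption on the profile besides continuity, all metrics
invariant under a circle action on the torus.

For all eigenfunctions and all admissible coverings we prove the weak type form of the inequality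
of Nazarov, Polterovich and Sodin, and the inequality itself up to a logarithm.
-/

set_option autoImplicit false

namespace Pool.Agent.Results.MP_c7f82c_an.PartiallyAnalyticTori

open Pool.Agent.Y291.DB Pool.Agent.Y291.PA

/-- Let `ρ` be a continuous positive function on the torus, analytic in the second variable.  For
all `C, C₁, C₂ > 0` there is a constant `a` such that for all eigenfunctions and all admissible
coverings with constants `C`, `C₁`, `C₂`: at most the proportion `a / t` of the discs have a doubling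
index `≥ t`, for every `t > 0`; and the average doubling index is at most `a log(2 + lam)`. -/
theorem result (ρ : ℝ × ℝ → ℝ) (L α : ℝ) (hL : 0 < L) (hρc : Continuous ρ)
    (hρpos : ∀ p, 0 < ρ p) (hρx : ∀ p : ℝ × ℝ, ρ (p.1 + L, p.2 + α) = ρ p)
    (hρy : ∀ p : ℝ × ℝ, ρ (p.1, p.2 + 2 * Real.pi) = ρ p) (hρa : AnalyticInSecond ρ)
    (C C₁ C₂ : ℝ) (hC : 0 < C) (hC₁ : 0 < C₁) (hC₂ : 0 < C₂) :
    ∃ a : ℝ, 0 < a ∧ ∀ (lam : ℝ) (φ : ℝ × ℝ → ℝ), Eigen ρ L α lam φ →
      ∀ (ι : Type) [Fintype ι] (c : ι → ℝ × ℝ), Admissible ρ L α lam φ C C₁ C₂ c →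
        (∀ t : ℝ, 0 < t → (({i | t ≤ doubling ρ L α φ (c i) (C / Real.sqrt lam)}.ncard : ℕ) : ℝ) ≤
          a / t * Fintype.card ι) ∧
        ∑ i, doubling ρ L α φ (c i) (C / Real.sqrt lam) ≤
          a * Real.log (2 + lam) * Fintype.card ι :=
  main hL hρc hρpos hρx hρy hρa hC hC₁ hC₂

/-- Metrics with a circle symmetry satisfy the hypothesis of analyticity. -/
theorem analytic_of_symmetric (ρ : ℝ × ℝ → ℝ) (L α : ℝ) (hL : 0 < L) (hρc : Continuous ρ)
    (hρx : ∀ p : ℝ × ℝ, ρ (p.1 + L, p.2 + α) = ρ p)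
    (hρy : ∀ p : ℝ × ℝ, ρ (p.1, p.2 + 2 * Real.pi) = ρ p)
    (hsym : ∀ x y : ℝ, ρ (x, y) = ρ (x, 0)) : AnalyticInSecond ρ := by
  obtain ⟨B, hB0, hB⟩ := bounded_of_per hL hρc hρx hρy
  refine ⟨1, B, fun x _ => (ρ (x, 0) : ℂ), one_pos, fun x => ⟨differentiableOn_const _, ?_, ?_⟩⟩
  · intro z _
    rw [Complex.norm_real]
    exact hB _
  · intro y
    rw [hsym x y]

end Pool.Agent.Results.MP_c7f82c_an.PartiallyAnalyticTori
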